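import Pool.Agent.H48.TP.ChP

/-!
# Topologies of henselian pairs in NIP fields

Let `R` be a subring with field of fractions `K`. The sets `a R`, `a ≠ 0`, are the neighbourhoods of
zero of a ring topology on `K`. Let `(R, I)` be a henselian pair with `I ≠ 0` and `R` integrally closed.
We show that if `K` is NIP, and if the values of some polynomial `f` over `K` with `f' ≠ 0` are bounded
away from zero, as for the topology of a henselian valuation of a field which is not separably closed,
then the topology of `R` is the topology of a henselian valuation of `K`. In positive characteristic, or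
if the value group is not divisible by some number prime to the residue characteristic, the conclusion
of Shelah's conjecture holds for `K`. (In positive characteristic we use the library theorem
`main_char_p` on definable topologies given by valuations.)

The polynomial gives a bounded neighbourhood of zero which is definable in the language of rings, the
set `{1 / f (y) - 1 / f (z) | y ∈ K}`. Instead of the polynomial any definable bounded neighbourhood of
zero suffices if some element of `K` is not almost integral over `R`.

The independence property is found as follows. If the topology is not given by a valuation then there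
are elements `g 1, …, g N` such that all the products `g i * g j`, `i ≠ j`, are in a given
neighbourhood `π ^ n R`, but no `g i ^ 2` is in `π ^ (-n) R`. Then `g i * ∑ j ∉ S, g j` is in the
definable set `B` if and only if `i ∈ S`. The `g i` are found by partial fractions.
-/

set_option autoImplicit false

namespace Pool.Agent.Results.MP_3554b5_lc.BoundedNeighbourhoods

open FirstOrder FirstOrder.Ring
open scoped Polynomial

/-- `K` is NIP: no formula of the language of rings has the independence property in `K` (this is
the hypothesis of `S14569`). -/
def NIPField (K : Type) [Field K] [FirstOrder.Ring.CompatibleRing K] : Prop :=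
  ∀ (m k : ℕ) (φ : FirstOrder.Language.ring.Formula (Fin m ⊕ Fin k)),
    ∃ n : ℕ, ∀ (a : Fin n → Fin m → K) (b : Finset (Fin n) → Fin k → K),
      ∃ (i : Fin n) (J : Finset (Fin n)),
        ¬ (φ.Realize (Sum.elim (a i) (b J)) ↔ i ∈ J)

/-- The subset `B` of `K` is definable with parameters in the language of rings (as in `S14569`). -/
def DefinableSet {K : Type} [Field K] [FirstOrder.Ring.CompatibleRing K] (B : Set K) : Prop :=
  ∃ (p : ℕ) (ψ : FirstOrder.Language.ring.Formula (Fin 1 ⊕ Fin p)) (c : Fin p → K),
    ∀ x : K, x ∈ B ↔ ψ.Realize (Sum.elim (fun _ => x) c)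

/-- There is a definable set between two nonzero multiples of `R`: a definable bounded neighbourhood of
zero. For example `R` is definable. -/
def DefinablyBounded {K : Type} [Field K] [FirstOrder.Ring.CompatibleRing K] (R : Subring K) :
    Prop :=
  ∃ B : Set K, DefinableSet B ∧ (∃ a : K, a ≠ 0 ∧ ∀ r ∈ R, a * r ∈ B) ∧
    ∃ b : K, b ≠ 0 ∧ ∀ x ∈ B, b * x ∈ R

/-- The nonzero values of some polynomial `f` over `K` with `f' ≠ 0` are bounded away from zero: their
inverses have a common denominator with respect to `R`. -/
def ValuesAwayFromZero {K : Type} [Field K] (R : Subring K) : Prop :=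
  ∃ f : K[X], f.derivative ≠ 0 ∧ ∃ b : K, b ≠ 0 ∧ ∀ y : K, f.eval y ≠ 0 → b * (f.eval y)⁻¹ ∈ R

/-- Some element of `K` is not almost integral over `R`. For example `1 / π`, if `π ≠ 0` and the
intersection of the ideals `π ^ m R` of `R` is zero. -/
def NotAllAlmostIntegral {K : Type} [Field K] (R : Subring K) : Prop :=
  ∃ x : K, ¬ IsAlmostIntegral R x

/-- The elements of `K` which are almost integral over `R` have a common denominator. -/
def BoundedClosure {K : Type} [Field K] (R : Subring K) : Prop :=
  ∃ κ : K, κ ≠ 0 ∧ ∀ x : K, IsAlmostIntegral R x → κ * x ∈ R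

/-- The topology of `R` is the topology of the nontrivial valuation ring `O`: the ring `R` is contained
in `O`, and `O` is contained in a multiple of `R`. -/
def SameTopology {K : Type} [Field K] (R : Subring K) (O : ValuationSubring K) : Prop :=
  O ≠ ⊤ ∧ R ≤ O.toSubring ∧ ∃ a : K, a ≠ 0 ∧ ∀ x ∈ O, a * x ∈ R

/-- The value group of `O` is not divisible by some `q` which is a unit of `O`. -/
def NotDivisible {K : Type} [Field K] (O : ValuationSubring K) : Prop :=
  ∃ q : ℕ, O.valuation (q : K) = 1 ∧ ∃ t : K, ∀ x : K, O.valuation (x ^ q) ≠ O.valuation t

/-- The conclusion of `S14569` holds for `K`: it is separably closed, or some nontrivial henselian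
valuation ring of `K` is definable. -/
def ShelahConclusion (K : Type) [Field K] [FirstOrder.Ring.CompatibleRing K] : Prop :=
  IsSepClosed K ∨ ∃ O : ValuationSubring K, O ≠ ⊤ ∧ HenselianLocalRing O ∧
    DefinableSet (O : Set K)

/-- Let `K` be an NIP field and `R` a subring with field of fractions `K`.

(1) Let `R` be integrally closed, and let `I ≠ 0` be an ideal of `R` such that the pair `(R, I)` is
henselian. Suppose that there is a polynomial with values which are bounded away from zero, or that
there is a definable bounded neighbourhood of zero and some element of `K` is not almost integral over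
`R` (for example, the intersection of the powers of `I` is zero). Then the topology of `R` is the
topology of a henselian valuation ring `O`.

(2) Let `R` be not necessarily integrally closed, and let `(R, I)` be a henselian pair, `I ≠ 0`. Suppose
that the elements of `K` which are almost integral over `R` have a common denominator, and that there is
a definable bounded neighbourhood of zero or a polynomial with values which are bounded away from zero;
or suppose that `I = (π)` and `K = R[1/π]` and that there is a polynomial with values which are bounded
away from zero. Then the same conclusion holds.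

(3) Let `R` be local and integrally closed. Suppose that there is a definable bounded neighbourhood of
zero (for example, `R` is definable) and that some element of `K` is not almost integral over `R`. Then
the topology of `R` is the topology of a valuation ring.

In (1) and (2), if `K` has positive characteristic or if the value group of `O` is not divisible by some
number which is a unit of `O`, then the conclusion of `S14569` holds for `K`. In (3) it holds for `K` if
`K` has positive characteristic. -/
theorem result (K : Type) [Field K] [FirstOrder.Ring.CompatibleRing K] (hK : NIPField K)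
    (R : Subring K) [IsFractionRing R K] :
    -- (1)
    (∀ I : Ideal R, I ≠ ⊥ → HenselianRing R I → IsIntegrallyClosed R →
      (ValuesAwayFromZero R ∨ DefinablyBounded R ∧ NotAllAlmostIntegral R) →
      ∃ O : ValuationSubring K, SameTopology R O ∧ HenselianLocalRing O ∧
        (ringChar K ≠ 0 ∨ NotDivisible O → ShelahConclusion K)) ∧
    -- (2)
    (∀ I : Ideal R, I ≠ ⊥ → HenselianRing R I →
      (BoundedClosure R ∧ (DefinablyBounded R ∨ ValuesAwayFromZero R) ∨
        (∃ π : R, I = Ideal.span {π} ∧ IsLocalization.Away π K) ∧ ValuesAwayFromZero R) →
      ∃ O : ValuationSubring K, SameTopology R O ∧ HenselianLocalRing O ∧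
        (ringChar K ≠ 0 ∨ NotDivisible O → ShelahConclusion K)) ∧
    -- (3)
    (IsLocalRing R → IsIntegrallyClosed R → DefinablyBounded R ∧ NotAllAlmostIntegral R →
      ∃ O : ValuationSubring K, SameTopology R O ∧
        (ringChar K ≠ 0 → ShelahConclusion K)) := by
  have hfrac : ∀ x : K, ∃ c ∈ R, c ≠ 0 ∧ c * x ∈ R := Pool.Agent.H48.TP.frac_of
  refine ⟨?_, ?_, ?_⟩
  · intro I hI hH hic hB
    obtain ⟨O, h1, h2⟩ := Pool.Agent.H48.TP.fin_closed hK I hH hI
      (Pool.Agent.H48.TP.integral_mem hic) hfrac
      (hB.imp id fun h => ⟨h.1, h.2.imp fun _ hx h' => hx (Pool.Agent.H48.TP.almInt_iff.1 h')⟩)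
    have hbd : Pool.Agent.H48.TP.Bdd R := by
      rcases hB with h | h
      · exact Pool.Agent.H48.TP.bdd_of_away I hH hI hfrac h
      · exact h.1
    exact ⟨O, h1, h2.1, Pool.Agent.H48.TP.shel_of hK h1 h2 hbd⟩
  · rintro I hI hH (⟨⟨κ, hκ0, hκ⟩, hB⟩ | ⟨⟨π, rfl, hA⟩, hf⟩)
    · obtain ⟨O, h1, h2⟩ := Pool.Agent.H48.TP.fin_bounded hK I hH hI hfrac
        ⟨κ, hκ0, fun x hx => hκ x (Pool.Agent.H48.TP.almInt_iff.1 hx)⟩ hB
      have hbd : Pool.Agent.H48.TP.Bdd R := by
        rcases hB with h | h
        · exact h
        · exact Pool.Agent.H48.TP.bdd_of_away I hH hI hfrac h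
      exact ⟨O, h1, h2.1, Pool.Agent.H48.TP.shel_of hK h1 h2 hbd⟩
    · have hπ : π ≠ 0 := fun h => hI (by rw [h, Ideal.span_singleton_eq_bot])
      obtain ⟨O, h1, h2⟩ := Pool.Agent.H48.TP.fin_tate hK π hπ hA hH hf
      exact ⟨O, h1, h2.1, Pool.Agent.H48.TP.shel_of hK h1 h2
        (Pool.Agent.H48.TP.bdd_of_away _ hH hI hfrac hf)⟩
  · rintro hloc hic ⟨hB, x, hx⟩
    obtain ⟨O, h1⟩ := Pool.Agent.H48.TP.fin_local hK hloc (Pool.Agent.H48.TP.integral_mem hic)
      hfrac (fun h => hx (Pool.Agent.H48.TP.almInt_iff.1 h)) hB
    exact ⟨O, h1, fun hchar => Pool.Agent.H48.TP.shel_ringChar hK hchar h1 hB⟩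

end Pool.Agent.Results.MP_3554b5_lc.BoundedNeighbourhoods
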