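import Pool.Agent.H48.Alg

/-!
# Valuations on henselian pairs in NIP fields

A pair `(R, I)` of a ring and an ideal is henselian (`HenselianRing R I`) if simple roots modulo `I`
of monic polynomials over `R` lift. Let the NIP field `K` contain a henselian pair `(R, I)` with
`I ≠ 0`. Then all but a bounded number of the valuations of `K` which are nonnegative on `R` and have
pairwise incomparable centres on `R` are closed under approximate roots of monic polynomials of degree
`d` over `R`.

The earlier results about NIP fields with many valuations need valuations which are not tame: the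
residue fields must have separable extensions (or the completions must be of dimension at least two).
Here the valuations may be tame, for example with algebraically closed residue fields. The solutions
of equations which are needed for the independence property come from the henselian pair. The formula
is: the polynomial `X ^ d + (a + c₀) X ^ (d - 1) + c₁ X ^ (d - 2) + ... + c_{d - 1}` has a root.
-/

set_option autoImplicit false

namespace Pool.Agent.Results.MP_3554b5_lc.HenselianPairs

open FirstOrder FirstOrder.Ring
open scoped PowerSeries Polynomial

/-- `K` is NIP: no formula of the language of rings has the independence property in `K` (this is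
the hypothesis of `S14569`). -/
def NIPField (K : Type) [Field K] [FirstOrder.Ring.CompatibleRing K] : Prop :=
  ∀ (m k : ℕ) (φ : FirstOrder.Language.ring.Formula (Fin m ⊕ Fin k)),
    ∃ n : ℕ, ∀ (a : Fin n → Fin m → K) (b : Finset (Fin n) → Fin k → K),
      ∃ (i : Fin n) (J : Finset (Fin n)),
        ¬ (φ.Realize (Sum.elim (a i) (b J)) ↔ i ∈ J)

theorem aeval_eq {K : Type} [Field K] {R : Subring K} (g : R[X]) {d : ℕ} (hg : g.Monic)
    (hd : g.natDegree = d) (x : K) :
    Polynomial.aeval x g = Pool.Agent.H48.ev d (fun k => R.subtype (g.coeff (d - 1 - (k : ℕ)))) x := by
  subst hd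
  rw [Pool.Agent.H48.ev, Polynomial.aeval_eq_sum_range, Finset.sum_range_succ, add_comm]
  congr 1
  · rw [hg.coeff_natDegree, one_smul]
  · rw [← Finset.sum_range_reflect, Finset.sum_range]
    refine Finset.sum_congr rfl fun k _ => ?_
    rw [Algebra.smul_def]
    rfl

/-- The valuation rings `O i` have pairwise incomparable centres on the ring `R` which they contain:
for `i ≠ j` some element of `R` has positive value for `O i` and value zero for `O j`. -/
def IncomparableCentres {K : Type} [Field K] (R : Subring K) {N : ℕ}
    (O : Fin N → ValuationSubring K) : Prop :=
  ∀ i j, i ≠ j → ∃ x ∈ R, (O i).valuation x < 1 ∧ (O j).valuation x = 1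

/-- For every element `x` of `R` of positive value the values of the powers of `x` tend to infinity:
they become at least as large as the value of any nonzero element of the field. This holds for
valuations with real values. (The valuation is written multiplicatively.) -/
def PowersTendToInfinity {K : Type} [Field K] (R : Subring K) (O : ValuationSubring K) : Prop :=
  ∀ x ∈ R, O.valuation x < 1 → ∀ y : K, y ≠ 0 → ∃ m : ℕ, O.valuation (x ^ m) ≤ O.valuation y

/-- All monic polynomials of degree `d` over `R` have approximate roots in the field `K`. -/
def ApproximateRoots {K : Type} [Field K] (d : ℕ) (R : Subring K) (O : ValuationSubring K) : Prop :=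
  ∀ g : R[X], g.Monic → g.natDegree = d → ∀ ε : K, ε ≠ 0 →
    ∃ x : K, O.valuation (Polynomial.aeval x g) < O.valuation ε

/-- Let `K` be an NIP field and `d ≥ 1`. There is `N`, depending only on `d` and the theory of `K`,
with the following property. Let `K'` be a field which is elementarily equivalent to `K` (for example
`K' = K`), `R` a subring of `K'` and `I ≠ 0` an ideal of `R` such that the pair `(R, I)` is henselian.
Let `O i`, `i < N`, be valuation rings of `K'` which contain `R`, with pairwise incomparable centres
on `R`, such that for every element of `R` of positive value the values of its powers tend to infinity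
in `K'` (for example valuations with real values). Then for one of these valuations all monic
polynomials of degree `d` over `R` have approximate roots in `K'`: their values on `K'` become
arbitrarily small. -/
theorem result (K : Type) [Field K] [FirstOrder.Ring.CompatibleRing K] (hK : NIPField K) (d : ℕ)
    (hd : 1 ≤ d) :
    ∃ N : ℕ, ∀ (K' : Type) [Field K'] [FirstOrder.Ring.CompatibleRing K'],
      FirstOrder.Language.ring.ElementarilyEquivalent K K' →
      ∀ (R : Subring K') (I : Ideal R), HenselianRing R I → I ≠ ⊥ →
      ∀ O : Fin N → ValuationSubring K', (∀ i, R ≤ (O i).toSubring) →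
        IncomparableCentres R O → (∀ i, PowersTendToInfinity R (O i)) →
        ∃ i, ApproximateRoots d R (O i) := by
  obtain ⟨N, hN⟩ := Pool.Agent.H48.few (K := K) hK d hd
  refine ⟨N, fun K' _ _ hKK' R I hRI hI O hRO hinc harch => ?_⟩
  have hroot := Pool.Agent.H48.rootIdeal_of_henselian I R.subtype hd
  by_contra hcon
  unfold ApproximateRoots at hcon
  push Not at hcon
  refine hN K' hKK' R R.subtype Subtype.val_injective I hI hroot (fun i => (O i).ValueGroup)
    (fun i => (O i).valuation) ?_ ?_ ?_ ?_
  · intro i r
    exact ((O i).valuation_le_one_iff _).2 (hRO i r.2)
  · intro i j hij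
    obtain ⟨x, hx, h1, h2⟩ := hinc i j hij
    exact ⟨⟨x, hx⟩, h1, h2⟩
  · intro i x hx y hy
    obtain ⟨m, hm⟩ := harch i x x.2 hx y hy
    refine ⟨m, ?_⟩
    rw [← map_pow]
    exact hm
  · intro i
    obtain ⟨g, hg, hgd, ε, hε, hfar⟩ := hcon i
    refine ⟨fun k => g.coeff (d - 1 - (k : ℕ)), ε, hε, fun x => ?_⟩
    rw [← aeval_eq g hg hgd]
    exact hfar x

end Pool.Agent.Results.MP_3554b5_lc.HenselianPairs
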