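import Pool.Agent.H48.Alg

/-!
# The conjecture of Shelah for the fields of fractions of henselian Krull domains

Let `(R, I)` be a henselian pair with `I ≠ 0` (for example a henselian local ring with its maximal
ideal, or a ring which is complete for the topology of a nonzero ideal) and let `R` be a factorial
domain, a Krull domain or, more generally, a domain which is the intersection of its localizations at
its minimal nonzero prime ideals, these being discrete valuation rings. If the field of fractions of
`R` is NIP then `R` is a discrete valuation ring, henselian, and definable in the field.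
-/

set_option autoImplicit false

namespace Pool.Agent.Results.MP_3554b5_lc.KrullDomains

open FirstOrder FirstOrder.Ring
open scoped PowerSeries Polynomial

/-- `K` is NIP: no formula of the language of rings has the independence property in `K` (this is
the hypothesis of `S14569`). -/
def NIPField (K : Type) [Field K] [FirstOrder.Ring.CompatibleRing K] : Prop :=
  ∀ (m k : ℕ) (φ : FirstOrder.Language.ring.Formula (Fin m ⊕ Fin k)),
    ∃ n : ℕ, ∀ (a : Fin n → Fin m → K) (b : Finset (Fin n) → Fin k → K),
      ∃ (i : Fin n) (J : Finset (Fin n)),
        ¬ (φ.Realize (Sum.elim (a i) (b J)) ↔ i ∈ J)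

/-- `p` is a minimal nonzero prime ideal (in a domain: a prime ideal of height one). -/
def MinPrime {R : Type} [CommRing R] (p : Ideal R) : Prop :=
  p.IsPrime ∧ p ≠ ⊥ ∧ ∀ q : Ideal R, q.IsPrime → q ≠ ⊥ → q ≤ p → q = p

/-- Let `R` be a domain and `I ≠ 0` an ideal of `R` such that the pair `(R, I)` is henselian. Suppose
that the localizations of `R` at its minimal nonzero prime ideals are discrete valuation rings, and
that `R` is their intersection in its field of fractions `K` (for example `R` is a factorial domain or
a Krull domain). If `K` is NIP then `R` is a discrete valuation ring, and it is, as a valuation ring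
`O` of `K`, nontrivial, henselian and definable in `K`. So `K` has a definable henselian valuation, as
in the conclusion of `S14569`. -/
theorem result (R : Type) [CommRing R] [IsDomain R] (I : Ideal R) (hRI : HenselianRing R I)
    (hI : I ≠ ⊥)
    (h1 : ∀ (p : Ideal R) [p.IsPrime], MinPrime p →
      IsDiscreteValuationRing (Localization.AtPrime p))
    (K : Type) [Field K] [FirstOrder.Ring.CompatibleRing K] [Algebra R K] [IsFractionRing R K]
    (h2 : ∀ x : K, (∀ p : Ideal R, MinPrime p → ∃ a s : R, s ∉ p ∧
      x * algebraMap R K s = algebraMap R K a) → ∃ a : R, algebraMap R K a = x)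
    (hK : NIPField K) :
    IsDiscreteValuationRing R ∧ ∃ O : ValuationSubring K,
      (∀ x : K, x ∈ O ↔ ∃ a : R, algebraMap R K a = x) ∧ O ≠ ⊤ ∧ HenselianLocalRing O ∧
      ∃ (p : ℕ) (ψ : FirstOrder.Language.ring.Formula (Fin 1 ⊕ Fin p)) (c : Fin p → K),
        ∀ x : K, x ∈ O ↔ ψ.Realize (Sum.elim (fun _ => x) c) := by
  have hdvr : IsDiscreteValuationRing R :=
    Pool.Agent.H48.isDVR_of_nip (K := K) hK I hI (fun p _ hp => h1 p hp) h2
  have hh : HenselianLocalRing R := Pool.Agent.H48.henselianLocal I hI
  exact ⟨hdvr, Pool.Agent.H48.shelah_of_dvr⟩

end Pool.Agent.Results.MP_3554b5_lc.KrullDomains
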