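import Pool.Agent.H48.Alg

/-!
# Extensions of the fields of fractions of rings of power series over adic domains

Let `B` be a domain which is complete for the topology of an ideal `J`, and `R` a ring of power series
over `B` which contains `X - c` for infinitely many `c` in `J` and which has an ideal `I ≠ 0` such that
the pair `(R, I)` is henselian. No finite extension of the field of fractions of `R` is NIP. For an
algebraic extension `L` of infinite degree which is NIP, for each `q`, all but a bounded number of the
elements `X - c` have values divisible by `q` at all the valuations of `L` over the point `X = c`.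

Examples of such rings are the rings of power series over a domain with a nonzero topologically
nilpotent element, and the rings of restricted power series (Tate algebras). The residue fields of the
valuations at the points `X = c` may be algebraically closed here.
-/

set_option autoImplicit false

namespace Pool.Agent.Results.MP_3554b5_lc.PowerSeriesFields

open FirstOrder FirstOrder.Ring
open scoped PowerSeries Polynomial

/-- `K` is NIP: no formula of the language of rings has the independence property in `K` (this is
the hypothesis of `S14569`). -/
def NIPField (K : Type) [Field K] [FirstOrder.Ring.CompatibleRing K] : Prop :=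
  ∀ (m k : ℕ) (φ : FirstOrder.Language.ring.Formula (Fin m ⊕ Fin k)),
    ∃ n : ℕ, ∀ (a : Fin n → Fin m → K) (b : Finset (Fin n) → Fin k → K),
      ∃ (i : Fin n) (J : Finset (Fin n)),
        ¬ (φ.Realize (Sum.elim (a i) (b J)) ↔ i ∈ J)

/-- No finite extension `L` of the field of fractions `K` of `R` is NIP. -/
def NoFiniteExtensionNIP (R : Type) [CommRing R] : Prop :=
  ∀ (K : Type) [Field K] [Algebra R K] [IsFractionRing R K] (L : Type) [Field L] [Algebra K L]
    [FiniteDimensional K L] [FirstOrder.Ring.CompatibleRing L], ¬ NIPField L

/-- The valuation ring `O` of the extension `L` of the field of fractions `K` of the ring `R` of power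
series over `B` lies over the valuation of `K` which is given by the order of vanishing at `X = c`. -/
def LiesOverPoint {B : Type} [CommRing B] (R : Subring B⟦X⟧) (K : Type) [Field K] [Algebra R K]
    {L : Type} [Field L] [Algebra K L] (O : ValuationSubring L) (c : B) : Prop :=
  ∀ f g : R, g ≠ 0 → (algebraMap K L (algebraMap R K f / algebraMap R K g) ∈ O ↔
    ∀ n : ℕ, (PowerSeries.X - PowerSeries.C c) ^ n ∣ (g : B⟦X⟧) →
      (PowerSeries.X - PowerSeries.C c) ^ n ∣ (f : B⟦X⟧))

/-- The power series `f` over `B` is restricted for the topology of the ideal `(ϖ)`: it is congruent to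
a polynomial modulo every power of `ϖ`. -/
def Restricted {B : Type} [CommRing B] (ϖ : B) (f : B⟦X⟧) : Prop :=
  ∀ n : ℕ, ∃ p : B[X], PowerSeries.C ϖ ^ n ∣ f - (p : B⟦X⟧)

/-- Let `B` be a domain which is complete for the topology of an ideal `J`.

(1) Let `R` be a subring of the ring of power series over `B`, and `I ≠ 0` an ideal of `R` such that
the pair `(R, I)` is henselian. Let `L` be an NIP field which is an algebraic extension of the field
of fractions of `R`, and `q ≥ 1`. There is `N` such that for all different elements `c i` of `J`,
`i < N`, with `X - c i` in `R` the following holds for some `i`: for every valuation ring of `L` over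
the point `X = c i` the value of `X - c i` is divisible by `q` in its value group.

(2) Let `R` be as in (1), with `X - c` in `R` for infinitely many `c` in `J`. Then no finite extension
of the field of fractions of `R` is NIP.

(3) In particular let `A` be a subring of `B` with an element `a ≠ 0` of `A` in `J`. Then no finite
extension of the field of fractions of the ring of power series over `A` is NIP.

(4) In particular let `J = (ϖ)` with `ϖ ≠ 0`, and let `R = B⟨X⟩` be the ring of all power series which
are congruent to polynomials modulo all powers of `ϖ` (the restricted power series). Then no finite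
extension of the field of fractions of `R` is NIP. -/
theorem result (B : Type) [CommRing B] [IsDomain B] (J : Ideal B) (hJ : IsAdicComplete J B) :
    -- (1)
    (∀ (R : Subring B⟦X⟧) (I : Ideal R), HenselianRing R I → I ≠ ⊥ →
      ∀ (K : Type) [Field K] [Algebra R K] [IsFractionRing R K] (L : Type) [Field L]
        [Algebra K L] [Algebra.IsAlgebraic K L] [FirstOrder.Ring.CompatibleRing L],
        NIPField L → ∀ q : ℕ, 1 ≤ q → ∃ N : ℕ, ∀ (c : Fin N → B)
          (hc : ∀ i, PowerSeries.X - PowerSeries.C (c i) ∈ R), Function.Injective c →
          (∀ i, c i ∈ J) →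
          ∃ i, ∀ O : ValuationSubring L, LiesOverPoint R K O (c i) →
            ∃ y : L, O.valuation y ^ q =
              O.valuation (algebraMap K L (algebraMap R K ⟨_, hc i⟩))) ∧
    -- (2)
    (∀ (R : Subring B⟦X⟧) (I : Ideal R), HenselianRing R I → I ≠ ⊥ →
      {c : B | c ∈ J ∧ PowerSeries.X - PowerSeries.C c ∈ R}.Infinite → NoFiniteExtensionNIP R) ∧
    -- (3)
    (∀ (A : Subring B) (a : A), a ≠ 0 → (a : B) ∈ J → NoFiniteExtensionNIP A⟦X⟧) ∧
    -- (4)
    (∀ ϖ : B, ϖ ≠ 0 → J = Ideal.span {ϖ} → ∀ R : Subring B⟦X⟧,
      (∀ f : B⟦X⟧, f ∈ R ↔ Restricted ϖ f) → NoFiniteExtensionNIP R) := by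
  refine ⟨?_, ?_, ?_, ?_⟩
  · intro R I hRI hI K _ _ _ L _ _ _ _ hL q hq
    obtain ⟨N, hN⟩ := Pool.Agent.H48.algebraic_powerSeries B J R R.subtype Subtype.val_injective I
      hI K L hL q hq
    refine ⟨N, fun c hc hinj hcJ => ?_⟩
    obtain ⟨i, hi⟩ := hN c (fun i => ⟨_, hc i⟩) hinj hcJ (fun i => rfl)
    refine ⟨i, fun O hO => hi O fun f g hg => ?_⟩
    have h := hO f g hg
    rw [map_div₀] at h
    exact h
  · intro R I hRI hI hinf K _ _ _ L _ _ _ _
    refine Pool.Agent.H48.not_nip_of_powerSeries B J R R.subtype Subtype.val_injective I hI
      (fun N => ?_) K L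
    obtain ⟨s, hs, hcard⟩ := hinf.exists_subset_card_eq N
    let e := (s.equivFinOfCardEq hcard).symm
    refine ⟨fun i => (e i : B), fun i => ⟨_, (hs (e i).2).2⟩, fun i j h =>
      e.injective (Subtype.ext h), fun i => (hs (e i).2).1, fun i => rfl⟩
  · intro A a ha haJ K _ _ _ L _ _ _ _
    exact Pool.Agent.H48.not_nip_powerSeries A B J A.subtype Subtype.val_injective a ha haJ K L
  · rintro ϖ h0 rfl R hR K _ _ _ L _ _ _ _
    have e : R = Pool.Agent.H48.tate ϖ := by
      ext f
      rw [hR, Pool.Agent.H48.mem_tate, Restricted]
    subst e
    exact Pool.Agent.H48.not_nip_tate ϖ h0 K L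

end Pool.Agent.Results.MP_3554b5_lc.PowerSeriesFields
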